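import Mathlib
import Pool.Agent.R768.SG.Asm

/-!
# Tame ramification over `𝔽_p(X)` can be pushed to places of large degree

For every finite group `G` and every `N` there are a finite group `Γ` and an epimorphism `Γ → G`
with abelian kernel such that in every Galois extension `L` of `𝔽_p(X)` with group `Γ` the
subfield `F` with group `G` is tamely ramified only at places of degree divisible by large powers
of the prime divisors of the ramification index.  So the inverse Galois problem over `𝔽_p(X)` is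
equivalent to the problem with these conditions.
-/

set_option autoImplicit false

open scoped Pointwise

namespace Pool.Agent.Results.MP_7f581e_nt.SparseTamePlaces

/-- Let `A` be a Dedekind domain with quotient field `𝔽_p(X)` and `P` a maximal ideal of the
integral closure of `A` in `F` over `𝔪`, with residue field `A ⧸ 𝔪` of order `p ^ d`.  If a prime
`ℓ ≠ p` divides the ramification index of `P` over `𝔪`, then `ℓ ^ N` divides `d`. -/
def SparseAt {F A : Type} [Field F] [CommRing A] [Algebra A F] (p N : ℕ)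
    (P : Ideal (integralClosure A F)) : Prop :=
  ∀ d ℓ : ℕ, Nat.card (A ⧸ P.under A) = p ^ d → ℓ.Prime → ℓ ≠ p →
    ℓ ∣ P.ramificationIdx A → ℓ ^ N ∣ d

/-- If the residue field `A ⧸ 𝔪` is finite and `ℓ ≠ p` is a prime, then all `ℓ`-subgroups of the
decomposition group of `P` are cyclic. -/
def CyclicAt {k F A : Type} [Field k] [Field F] [Algebra k F] [CommRing A] [Algebra A k]
    [Algebra A F] [IsScalarTower A k F] (p : ℕ) (P : Ideal (integralClosure A F)) : Prop :=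
  ∀ ℓ : ℕ, Finite (A ⧸ P.under A) → ℓ.Prime → ℓ ≠ p → ∀ Q : Subgroup (F ≃ₐ[k] F),
    Q ≤ MulAction.stabilizer (F ≃ₐ[k] F) P → IsPGroup ℓ Q → IsCyclic Q

/-- `SparseAt` and `CyclicAt` at all places of `F`, for the extension `F` of `k`. -/
def Sparse (k F : Type) [Field k] [Field F] [Algebra k F] (p N : ℕ) : Prop :=
  ∀ (A : Type) [CommRing A] [IsDedekindDomain A] [Algebra A k] [IsFractionRing A k] [Algebra A F]
    [IsScalarTower A k F] (P : Ideal (integralClosure A F)), P.IsMaximal → P ≠ ⊥ →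
      SparseAt p N P ∧ CyclicAt (k := k) p P

/-- `F` is Galois over `k` with group isomorphic to `G` and satisfies `Sparse`. -/
def Realization (k F G : Type) [Field k] [Field F] [Algebra k F] [Group G] (p N : ℕ) : Prop :=
  IsGalois k F ∧ Nonempty (G ≃* (F ≃ₐ[k] F)) ∧ Sparse k F p N

/-- For every finite Galois extension `L` of `k` and every isomorphism `e` of its group with `Γ`
the fixed field of the kernel of `c ∘ e` satisfies `Realization`. -/
def Forces (k : Type) [Field k] {Γ G : Type} [Group Γ] [Group G] (c : Γ →* G) (p N : ℕ) : Prop :=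
  ∀ (L : Type) [Field L] [Algebra k L] [FiniteDimensional k L] [IsGalois k L]
    (e : (L ≃ₐ[k] L) ≃* Γ),
    Realization k (IntermediateField.fixedField (c.comp e.toMonoidHom).ker) G p N

end Pool.Agent.Results.MP_7f581e_nt.SparseTamePlaces

namespace Pool.Agent.Results.MP_7f581e_nt.SparseTamePlaces

open Pool.Agent.R768.IG Pool.Agent.R768.SG

theorem bound {p g N ℓ : ℕ} (hp : p.Prime) (hℓ : ℓ.Prime) (hg : 0 < g) (h : ℓ ∣ g) :
    p ^ ((ℓ - 1) * ℓ ^ N) ≤ ℓ ^ (p ^ (g ^ (N + 1)) + 1) := by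
  have h1 : ℓ ≤ g := Nat.le_of_dvd hg h
  have h2 : (ℓ - 1) * ℓ ^ N ≤ g ^ (N + 1) := by
    rw [pow_succ']
    exact Nat.mul_le_mul ((Nat.sub_le _ _).trans h1) (Nat.pow_le_pow_left h1 N)
  refine (Nat.pow_le_pow_right hp.pos h2).trans ?_
  set M := p ^ (g ^ (N + 1))
  have h3 : M ≤ 2 ^ (M + 1) := (Nat.lt_two_pow_self).le.trans (Nat.pow_le_pow_right two_pos
    (Nat.le_succ _))
  exact h3.trans (Nat.pow_le_pow_left hℓ.two_le _)

attribute [local instance] Ideal.Quotient.field in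
theorem perfect_of_finite {A : Type} [CommRing A] (𝔪 : Ideal A) [𝔪.IsMaximal]
    [Finite (A ⧸ 𝔪)] : PerfectField 𝔪.ResidueField :=
  PerfectField.of_ringEquiv (RingEquiv.ofBijective _
      (Ideal.bijective_algebraMap_quotient_residueField 𝔪))

theorem sparse_at {p : ℕ} [hp : Fact p.Prime] {F L A : Type} [Field F] [Field L]
    [Algebra (RatFunc (ZMod p)) L] [Algebra (RatFunc (ZMod p)) F] [Algebra F L]
    [IsScalarTower (RatFunc (ZMod p)) F L] [FiniteDimensional (RatFunc (ZMod p)) L]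
    [IsGalois (RatFunc (ZMod p)) L] [IsGalois (RatFunc (ZMod p)) F] (M N g : ℕ) (hg : 0 < g)
    (hcard : Nat.card (F ≃ₐ[RatFunc (ZMod p)] F) = g)
    (hM : ∀ ℓ : ℕ, ℓ.Prime → ℓ ∣ g → p ^ ((ℓ - 1) * ℓ ^ N) ≤ ℓ ^ (M + 1))
    (Ns : Subgroup (L ≃ₐ[RatFunc (ZMod p)] L)) [IsGaloisGroup Ns F L]
    (hker : (AlgEquiv.restrictNormalHom F :
      (L ≃ₐ[RatFunc (ZMod p)] L) →* (F ≃ₐ[RatFunc (ZMod p)] F)).ker = Ns)
    (hL : Lifts (g ^ (M + 1)) (AlgEquiv.restrictNormalHom F :
      (L ≃ₐ[RatFunc (ZMod p)] L) →* (F ≃ₐ[RatFunc (ZMod p)] F)))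
    [CommRing A] [IsDedekindDomain A] [Algebra A (RatFunc (ZMod p))]
    [IsFractionRing A (RatFunc (ZMod p))] [Algebra A F] [IsScalarTower A (RatFunc (ZMod p)) F]
    (P : Ideal (integralClosure A F)) (hP : P.IsMaximal) (hP0 : P ≠ ⊥) :
    SparseAt p N P ∧ CyclicAt (k := RatFunc (ZMod p)) p P := by
  -- `A` acts on `L` through `𝔽_p(X)`
  let _ : Algebra A L := ((algebraMap (RatFunc (ZMod p)) L).comp
    (algebraMap A (RatFunc (ZMod p)))).toAlgebra
  have t1 : IsScalarTower A (RatFunc (ZMod p)) L := IsScalarTower.of_algebraMap_eq fun _ => rfl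
  have t2 : IsScalarTower A F L := IsScalarTower.of_algebraMap_eq fun x => by
    rw [IsScalarTower.algebraMap_apply A (RatFunc (ZMod p)) F,
      ← IsScalarTower.algebraMap_apply (RatFunc (ZMod p)) F L]
    rfl
  have hint : Algebra.IsIntegral A (integralClosure A F) := inferInstance
  have hpA : (p : A) = 0 := by
    apply IsFractionRing.injective A (RatFunc (ZMod p))
    rw [map_natCast, map_zero]
    exact CharP.cast_eq_zero _ p
  have hPn : ∀ ℓ : ℕ, ℓ.Prime → ℓ ≠ p → (ℓ : integralClosure A F) ∉ P := by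
    intro ℓ hℓ hne h
    apply hP.ne_top
    rw [Ideal.eq_top_iff_one]
    have h1 : ((p : ℕ) : integralClosure A F) = 0 := by
      have : ((p : ℕ) : integralClosure A F) = algebraMap A _ (p : A) := by simp
      rw [this, hpA, map_zero]
    obtain ⟨u, v, huv⟩ := Nat.isCoprime_iff_coprime.2 ((Nat.coprime_primes hℓ hp.out).2 hne)
    have h2 : ((u * ℓ + v * p : ℤ) : integralClosure A F) = 1 := by rw [huv]; simp
    push_cast at h2
    rw [h1, mul_zero, add_zero] at h2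
    rw [← h2]
    exact Ideal.mul_mem_left _ _ h
  constructor
  · intro d ℓ hd hℓ hne hram
    have hfin : Finite (A ⧸ P.under A) := Nat.finite_of_card_ne_zero (by
      rw [hd]; exact (pow_pos hp.out.pos _).ne')
    have hpf := perfect_of_finite (P.under A)
    have hdiv : ℓ ∣ Nat.card (F ≃ₐ[RatFunc (ZMod p)] F) → ℓ ^ M ∣ g ^ (M + 1) := by
      intro hd'
      rw [hcard] at hd'
      exact (pow_dvd_pow ℓ (Nat.le_succ M)).trans (pow_dvd_pow_of_dvd hd' _)
    obtain ⟨h1, h2⟩ := field_root F Ns hker (M := M) (pow_pos hg _) hL hℓ hdiv P hP0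
      (hPn ℓ hℓ hne) hram
    rw [hcard] at h1
    have h3 : ℓ ∣ p ^ (ℓ - 1) - 1 := by
      have h3 := Nat.ModEq.pow_totient ((Nat.coprime_primes hp.out hℓ).2 hne.symm)
      rw [Nat.totient_prime hℓ] at h3
      exact (Nat.modEq_iff_dvd' (Nat.one_le_pow _ _ hp.out.pos)).1 h3.symm
    exact large_degree hp.out hℓ hne (hM ℓ hℓ h1) (root_finite hp.out hℓ P hpA hd h2 h3)
  · intro ℓ hfin hℓ hne Q hQ hQℓ
    have hdiv : ℓ ∣ Nat.card (F ≃ₐ[RatFunc (ZMod p)] F) → ℓ ∣ g ^ (M + 1) := by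
      intro hd'
      rw [hcard] at hd'
      exact hd'.trans (dvd_pow_self _ (Nat.succ_ne_zero M))
    exact field_cyc F Ns hker hL hℓ hdiv P hP0 (hPn ℓ hℓ hne) Q hQ hQℓ

theorem sparse_of {p : ℕ} [hp : Fact p.Prime] {G : Type} [Group G] [Finite G] (M N : ℕ)
    (hM : ∀ ℓ : ℕ, ℓ.Prime → ℓ ∣ Nat.card G → p ^ ((ℓ - 1) * ℓ ^ N) ≤ ℓ ^ (M + 1)) (L : Type)
    [Field L] [Algebra (RatFunc (ZMod p)) L] [FiniteDimensional (RatFunc (ZMod p)) L]
    [IsGalois (RatFunc (ZMod p)) L]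
    (e : (L ≃ₐ[RatFunc (ZMod p)] L) ≃* Cov G (Nat.card G ^ (M + 1)))
    (F : IntermediateField (RatFunc (ZMod p)) L)
    (hF : F = IntermediateField.fixedField
      ((cpr G (Nat.card G ^ (M + 1))).comp e.toMonoidHom).ker) :
    IsGalois (RatFunc (ZMod p)) F ∧ Nonempty (G ≃* (F ≃ₐ[RatFunc (ZMod p)] F)) ∧
      Sparse (RatFunc (ZMod p)) F p N := by
  obtain ⟨hG, Ns, hNs, ι, hker, -, hL⟩ := setup _ L e F hF
  refine ⟨hG, ⟨ι⟩, ?_⟩
  have hcard : Nat.card (F ≃ₐ[RatFunc (ZMod p)] F) = Nat.card G :=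
    (Nat.card_congr ι.toEquiv).symm
  intro A _ _ _ _ _ _ P hP hP0
  exact sparse_at M N (Nat.card G) Nat.card_pos hcard hM Ns hker hL P hP hP0

end Pool.Agent.Results.MP_7f581e_nt.SparseTamePlaces

open Pool.Agent.Results.MP_7f581e_nt.SparseTamePlaces in
theorem Pool.Agent.Results.MP_7f581e_nt.SparseTamePlaces.result :
    ∀ (p : ℕ) [Fact p.Prime] (G : Type) [Group G] [Finite G] (N : ℕ),
      ∃ (Γ : Type) (_ : Group Γ) (_ : Finite Γ) (c : Γ →* G), Function.Surjective c ∧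
        IsMulCommutative c.ker ∧ (∀ q : ℕ, q.Prime → q ∣ Nat.card Γ → q ∣ Nat.card G) ∧
        Forces (RatFunc (ZMod p)) c p N := by
  intro p hp G _ _ N
  obtain ⟨M, hM⟩ : ∃ M : ℕ, ∀ ℓ : ℕ, ℓ.Prime → ℓ ∣ Nat.card G →
      p ^ ((ℓ - 1) * ℓ ^ N) ≤ ℓ ^ (M + 1) :=
    ⟨_, fun ℓ hℓ h => bound hp.out hℓ Nat.card_pos h⟩
  have hE : 0 < Nat.card G ^ (M + 1) := pow_pos Nat.card_pos _
  have hfin := Pool.Agent.R768.IG.cov_finite G hE
  refine ⟨Pool.Agent.R768.IG.Cov G (Nat.card G ^ (M + 1)), inferInstance, hfin,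
    Pool.Agent.R768.IG.cpr G _, Pool.Agent.R768.IG.cpr_surj G _, ?_,
    fun q hq h => Pool.Agent.R768.IG.prime_dvd_cov G (M + 1) q hq h, ?_⟩
  · refine ⟨⟨fun a b => Subtype.ext ?_⟩⟩
    exact Pool.Agent.R768.IG.ker_comm G (Nat.card G ^ (M + 1)) a.1 b.1
      (MonoidHom.mem_ker.1 a.2) (MonoidHom.mem_ker.1 b.2)
  · intro L _ _ _ _ e
    exact sparse_of M N hM L e _ rfl
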