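import Pool.Agent.R768.RG.Bc

/-!
# The inverse Galois problem over `𝔽_p(X)` implies the regular inverse Galois problem over `𝔽_p`

Let `κ` be a finite field and `G` a finite group.  If the direct power `G ^ m` occurs over `κ(X)` for
some `m` larger than the number of prime divisors of `|G|`, then `G` occurs regularly over `κ`: it is
the Galois group of an extension of `κ(X)` without new constants.  So the inverse Galois problem over
`κ(X)` is equivalent to the regular inverse Galois problem over `κ`, and it implies the regular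
inverse Galois problem over all finite extensions of `κ`.  For `κ = 𝔽_p` one can add the local
conditions of `SparseTamePlaces`.

Idea: a Galois extension `L` of `κ(X)` with group `G ^ m` contains `m` extensions `F_i` with group
`G`.  If `F_i` has new constants, it contains an extension of `κ` of prime degree `ℓ_i`, and `ℓ_i`
divides `|G|`.  As `κ` has only one extension of degree `ℓ` in `L` and `F_i ∩ F_j = κ(X)` for
`i ≠ j`, the primes `ℓ_i` are distinct.
-/

set_option autoImplicit false

open Pool.Agent.Results.MP_7f581e_nt.SparseTamePlaces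

namespace Pool.Agent.Results.MP_7f581e_nt.RegularRealizations

/-- `G` occurs over `F`: it is the Galois group of a finite Galois extension of `F`. -/
def Occurs (F G : Type) [Field F] [Group G] : Prop :=
  ∃ (L : Type) (_ : Field L) (_ : Algebra F L),
    FiniteDimensional F L ∧ IsGalois F L ∧ Nonempty ((L ≃ₐ[F] L) ≃* G)

/-- `G` occurs regularly over `K`: it is the Galois group of a finite Galois extension of `K(X)` in
which `K` is algebraically closed. -/
def OccursRegularly (K G : Type) [Field K] [Group G] : Prop :=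
  ∃ (F : Type) (_ : Field F) (_ : Algebra (RatFunc K) F) (_ : Algebra K F)
    (_ : IsScalarTower K (RatFunc K) F) (_ : FiniteDimensional (RatFunc K) F)
    (_ : IsGalois (RatFunc K) F),
    Nonempty ((F ≃ₐ[RatFunc K] F) ≃* G) ∧
    ∀ y : F, IsAlgebraic K y → y ∈ Set.range (algebraMap K F)

/-- There is a finite extension `F` of `𝔽_p(X)` which is Galois with group isomorphic to `G`, in
which `𝔽_p` is algebraically closed, and which satisfies the conditions `Sparse` of
`SparseTamePlaces` at all places: for a prime `ℓ ≠ p` all `ℓ`-subgroups of decomposition groups are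
cyclic, and if `ℓ` divides a ramification index then `ℓ ^ N` divides the degree of the place. -/
def OccursSparselyRegularly (p N : ℕ) [Fact p.Prime] (G : Type) [Group G] : Prop :=
  ∃ (F : Type) (_ : Field F) (_ : Algebra (RatFunc (ZMod p)) F) (_ : Algebra (ZMod p) F)
    (_ : IsScalarTower (ZMod p) (RatFunc (ZMod p)) F)
    (_ : FiniteDimensional (RatFunc (ZMod p)) F),
    Realization (RatFunc (ZMod p)) F G p N ∧
    ∀ y : F, IsAlgebraic (ZMod p) y → y ∈ Set.range (algebraMap (ZMod p) F)

end Pool.Agent.Results.MP_7f581e_nt.RegularRealizations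

open Pool.Agent.Results.MP_7f581e_nt.RegularRealizations in
theorem Pool.Agent.Results.MP_7f581e_nt.RegularRealizations.result :
    -- (1) `G ^ m` over `κ(X)` gives `G` regularly over `κ`
    (∀ (κ : Type) [Field κ] [Finite κ] (G : Type) [Group G] [Finite G] (m : ℕ),
      (Nat.card G).primeFactors.card < m → Occurs (RatFunc κ) (Fin m → G) →
        OccursRegularly κ G) ∧
    -- (2) extension of the field of constants
    (∀ (κ κ' : Type) [Field κ] [Finite κ] [Field κ'] [Finite κ'] [Algebra κ κ'] (G : Type)
      [Group G] [Finite G] (m : ℕ), (Nat.card G).primeFactors.card < m →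
        Occurs (RatFunc κ) (Fin m → Fin m → G) → OccursRegularly κ' G) ∧
    -- (3) regular realizations with local conditions
    (∀ (p : ℕ) [Fact p.Prime] (G : Type) [Group G] [Finite G] (N : ℕ),
      ∃ (H : Type) (_ : Group H), Finite H ∧
        (∀ q : ℕ, q.Prime → q ∣ Nat.card H → q ∣ Nat.card G) ∧
        (Occurs (RatFunc (ZMod p)) H → OccursSparselyRegularly p N G)) ∧
    -- (4) equivalence of the problems
    (∀ (κ : Type) [Field κ] [Finite κ],
      (∀ (G : Type) [Group G] [Finite G], Occurs (RatFunc κ) G) ↔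
        ∀ (κ' : Type) [Field κ'] [Finite κ'] [Algebra κ κ'] (G : Type) [Group G] [Finite G],
          OccursRegularly κ' G) ∧
    (∀ (p : ℕ) [Fact p.Prime],
      (∀ (G : Type) [Group G] [Finite G], Occurs (RatFunc (ZMod p)) G) ↔
        ∀ (G : Type) [Group G] [Finite G] (N : ℕ), OccursSparselyRegularly p N G) := by
  have h1 : ∀ (κ : Type) [Field κ] [Finite κ] (G : Type) [Group G] [Finite G] (m : ℕ),
      (Nat.card G).primeFactors.card < m → Occurs (RatFunc κ) (Fin m → G) →
        OccursRegularly κ G := fun κ _ _ G _ _ m hm h =>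
    Pool.Agent.R768.RG.power_regular κ G m hm h
  have h1' : ∀ (κ κ' : Type) [Field κ] [Finite κ] [Field κ'] [Finite κ'] [Algebra κ κ'] (G : Type)
      [Group G] [Finite G] (m : ℕ), (Nat.card G).primeFactors.card < m →
        Occurs (RatFunc κ) (Fin m → Fin m → G) → OccursRegularly κ' G := by
    intro κ κ' _ _ _ _ _ G _ _ m hm h
    have hm0 : m ≠ 0 := by omega
    have h2 : (Nat.card (Fin m → G)).primeFactors = (Nat.card G).primeFactors := by
      rw [Nat.card_pi, Finset.prod_const, Finset.card_univ, Fintype.card_fin,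
        Nat.primeFactors_pow _ hm0]
    have h3 := Pool.Agent.R768.RG.power_regular κ (Fin m → G) m (by rw [h2]; exact hm) h
    exact Pool.Agent.R768.RG.power_regular κ' G m hm
      (Pool.Agent.R768.RG.occ_ext κ κ' (Fin m → G) h3)
  have h2 : ∀ (p : ℕ) [Fact p.Prime] (G : Type) [Group G] [Finite G] (N : ℕ),
      ∃ (H : Type) (_ : Group H), Finite H ∧
        (∀ q : ℕ, q.Prime → q ∣ Nat.card H → q ∣ Nat.card G) ∧
        (Occurs (RatFunc (ZMod p)) H → OccursSparselyRegularly p N G) := by
    intro p hp G _ _ N
    obtain ⟨Γ, iG, iF, c, hc, -, hq, hforce⟩ := SparseTamePlaces.result p G N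
    refine ⟨Fin ((Nat.card G).primeFactors.card + 1) → Γ, inferInstance, inferInstance, ?_, ?_⟩
    · intro q hqp hqd
      apply hq q hqp
      rw [Nat.card_pi, Finset.prod_const] at hqd
      exact hqp.dvd_of_dvd_pow hqd
    · intro h
      exact Pool.Agent.R768.RG.cover_regular p G Γ N c hc hforce _ (Nat.lt_succ_self _) h
  refine ⟨h1, h1', h2, fun κ _ _ => ⟨fun h κ' _ _ _ G _ _ =>
    h1' κ κ' G _ (Nat.lt_succ_self _) (h _), ?_⟩, fun p hp => ⟨fun h G _ _ N => ?_,
    fun h G _ _ => ?_⟩⟩
  · intro h G _ _
    obtain ⟨F, i1, i2, i3, i4, i5, i6, i7, -⟩ := h κ G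
    exact ⟨F, i1, i2, i5, i6, i7⟩
  · obtain ⟨H, iH, hfin, -, hH⟩ := h2 p G N
    exact hH (h H)
  · obtain ⟨F, i1, i2, i3, i4, i5, ⟨i6, ⟨γ⟩, -⟩, -⟩ := h G 0
    exact ⟨F, i1, i2, i5, i6, ⟨γ.symm⟩⟩
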