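import Mathlib
import Pool.Agent.R70.IG.RegFin

/-!
# Every finite group over an extension of `F_p(X)` of degree `ℓ^∞`

Let `κ` be a finite field (for example `F_p` for any prime `p`) and `A` an infinite set of positive
integers, for example the set of all powers of a prime `ℓ`. Then there is a separable algebraic
extension `F` of `κ(X)` such that

* `κ` is algebraically closed in `F`,
* the degree of every finite subextension of `F / κ(X)` divides a product of distinct elements of
  `A` (so it is a power of `ℓ` in the example),
* every finite group, and even every direct product of countably many finite groups, is the group of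
  a Galois extension `N` of `F` in which `κ` is algebraically closed.
-/

set_option autoImplicit false

namespace Pool.Agent.Results.MP_7f581e_nt.SparseDegreeField

/-- The degree of every finite subextension of `F / E` divides a product of distinct elements
of `A`. -/
def DegreesIn (A : Set ℕ) (E F : Type) [Field E] [Field F] [Algebra E F] : Prop :=
  ∀ M : IntermediateField E F, FiniteDimensional E M →
    ∃ T : Finset ℕ, (T : Set ℕ) ⊆ A ∧ Module.finrank E M ∣ ∏ a ∈ T, a

/-- `κ` is (relatively) algebraically closed in its extension field `F`. -/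
def ClosedIn (κ F : Type) [Field κ] [Field F] [Algebra κ F] : Prop :=
  ∀ y : F, IsAlgebraic κ y → y ∈ Set.range (algebraMap κ F)

/-- The group `G` is the group of a Galois extension `N` of `F` in which `κ` is algebraically
closed. -/
def OccursReg (κ F G : Type) [Field κ] [Field F] [Algebra κ F] [Group G] : Prop :=
  ∃ (N : Type) (_ : Field N) (_ : Algebra F N) (_ : Algebra κ N) (_ : IsScalarTower κ F N),
    IsGalois F N ∧ Nonempty ((N ≃ₐ[F] N) ≃* G) ∧ ClosedIn κ N

end Pool.Agent.Results.MP_7f581e_nt.SparseDegreeField

open Pool.Agent.Results.MP_7f581e_nt.SparseDegreeField in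
theorem Pool.Agent.Results.MP_7f581e_nt.SparseDegreeField.result :
    ∀ (κ : Type) [Field κ] [Finite κ] (A : Set ℕ), A.Infinite → 0 ∉ A →
      ∃ (F : Type) (_ : Field F) (_ : Algebra (RatFunc κ) F) (_ : Algebra κ F)
        (_ : IsScalarTower κ (RatFunc κ) F),
        Algebra.IsSeparable (RatFunc κ) F ∧ ClosedIn κ F ∧ DegreesIn A (RatFunc κ) F ∧
        ∀ (H : ℕ → Type) [∀ j, Group (H j)] [∀ j, Finite (H j)], OccursReg κ F (∀ j, H j) := by
  intro κ _ _ A hA h0
  obtain ⟨F, i1, i2, i3, i4, h1, h2, h3, h4⟩ := Pool.Agent.R70.IG.main_fin κ A hA h0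
  exact ⟨F, i1, i2, i3, i4, h1, h3, h2, fun H _ _ => h4 H⟩
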